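import Pool.Agent.Q151.Cookie.Comp
import Pool.Agent.Q151.Cookie.Lyap

/-!
# MP_2806c7_co: fair splitting of cookies with many uncut cookies

For all numbers of children, cookies and kinds of frosting and all finite non-atomic measures there
is a fair distribution with at most `(r-1) m` cut cookies in which every child has at least
`⌊(n - m (r-1)) / r⌋` full cookies.
-/

set_option autoImplicit false

namespace Pool.Agent.Results.MP_2806c7_co.AllChildren

open MeasureTheory Q151.Cookie

/-- **Q1 is true.**  Let `r, n, m ≥ 1` and let cookie `k` (the unit interval) carry the finite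
Borel measures `μ k j`, `j < m`, without atoms (on the unit interval: points have measure zero).
There is a distribution `A k c` (for every cookie `k` a partition of the unit interval into Borel
sets, one for every child `c`) that is fair, cuts at most `(r-1) m` cookies, and gives every child
at least `⌊(n - m (r-1)) / r⌋` full cookies. (`/` on integers with a positive divisor rounds
down.) -/
theorem result (r n m : ℕ) (hr : 0 < r) (_hn : 0 < n) (_hm : 0 < m)
    (μ : Fin n → Fin m → Measure unitInterval) (hfin : ∀ k j, IsFiniteMeasure (μ k j))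
    (hatom : ∀ k j (t : unitInterval), μ k j {t} = 0) :
    ∃ A : Fin n → Fin r → Set unitInterval,
      (∀ k c, MeasurableSet (A k c)) ∧
      (∀ k c c', c ≠ c' → Disjoint (A k c) (A k c')) ∧
      (∀ k, (⋃ c, A k c) = Set.univ) ∧
      (∀ c j, ∑ k, (μ k j (A k c)).toReal = (1 / r) * ∑ k, (μ k j Set.univ).toReal) ∧
      {k : Fin n | ∀ c, A k c ≠ Set.univ}.ncard ≤ (r - 1) * m ∧
      ∀ c, ((n : ℤ) - m * (r - 1)) / r ≤ ({k : Fin n | A k c = Set.univ}.ncard : ℤ) := by
  classical
  have : ∀ k j, NullSingletonClass (μ k j) := fun k j => ⟨hatom k j⟩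
  obtain ⟨x, hx, hcut, hfull⟩ := LP_all r hr (Fin n) m
    (fun k j => (μ k j Set.univ).toReal) Finset.univ
  rw [Fintype.card_fin] at hcut
  simp only [Fintype.card_fin, Finset.card_univ] at hfull
  -- the partition of one cookie
  have hpart : ∀ k : Fin n, ∃ A : Fin r → Set unitInterval, (∀ c, MeasurableSet (A c)) ∧
      (∀ c c', c ≠ c' → Disjoint (A c) (A c')) ∧ (⋃ c, A c) = Set.univ ∧
      (∀ j c, (μ k j (A c)).toReal = x k c * (μ k j Set.univ).toReal) ∧
      ∀ c, x k c = 1 → A c = Set.univ := by
    intro k
    by_cases h : ∃ c, x k c = 1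
    · obtain ⟨c0, hc0⟩ := h
      have hzero : ∀ c, c ≠ c0 → x k c = 0 := by
        intro c hc
        have h1 := hx.2.1 k
        rw [← Finset.add_sum_erase _ _ (Finset.mem_univ c0), hc0] at h1
        have h2 : ∑ c ∈ Finset.univ.erase c0, x k c = 0 := by linarith
        exact (Finset.sum_eq_zero_iff_of_nonneg (fun c _ => hx.1 k c)).1 h2 c
          (Finset.mem_erase.2 ⟨hc, Finset.mem_univ _⟩)
      refine ⟨fun c => if c = c0 then Set.univ else ∅, ?_, ?_, ?_, ?_, ?_⟩
      · intro c
        by_cases hc : c = c0
        · simp [hc]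
        · simp [hc]
      · intro c c' hcc
        by_cases hc : c = c0
        · have hc' : c' ≠ c0 := fun h => hcc (hc.trans h.symm)
          simp [hc']
        · simp [hc]
      · ext t
        simp only [Set.mem_iUnion, Set.mem_univ, iff_true]
        exact ⟨c0, by simp⟩
      · intro j c
        by_cases hc : c = c0
        · simp [hc, hc0]
        · simp [hc, hzero c hc]
      · intro c hc
        by_cases hc' : c = c0
        · simp [hc']
        · rw [hzero c hc'] at hc; norm_num at hc
    · push Not at h
      obtain ⟨A, h1, h2, h3, h4⟩ := unit_partition (μ k) (x k) (hx.1 k) (hx.2.1 k)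
      exact ⟨A, h1, h2, h3, h4, fun c hc => absurd hc (h c)⟩
  choose A hA1 hA2 hA3 hA4 hA5 using hpart
  refine ⟨A, hA1, hA2, hA3, ?_, ?_, ?_⟩
  · intro c j
    simp only [hA4]
    rw [hx.2.2 c j, Fintype.card_fin]
    ring
  · refine (Set.ncard_le_ncard ?_ (Set.toFinite _)).trans hcut
    intro k hk c hc
    exact hk c (hA5 k c hc)
  · intro c
    have h1 := hfull c
    have h2 : full Finset.univ x c ≤ {k : Fin n | A k c = Set.univ}.ncard := by
      unfold full
      rw [← Set.ncard_coe_finset]
      apply Set.ncard_le_ncard _ (Set.toFinite _)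
      intro k hk
      have hk' : x k c = 1 := by simpa using hk
      exact hA5 k c hk'
    have h3 : n ≤ r * {k : Fin n | A k c = Set.univ}.ncard + (r - 1) * (m + 1) :=
      h1.trans (Nat.add_le_add_right (Nat.mul_le_mul_left r h2) _)
    set F := {k : Fin n | A k c = Set.univ}.ncard
    have hrZ : (0 : ℤ) < r := by exact_mod_cast hr
    have h4 : ((n : ℤ) - m * (r - 1)) < r * (F + 1) := by
      have h5 : (n : ℤ) ≤ r * F + ((r : ℤ) - 1) * (m + 1) := by
        have h6 : ((r - 1 : ℕ) : ℤ) = (r : ℤ) - 1 := by
          rw [Nat.cast_sub (by omega)]; simp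
        have h7 : (n : ℤ) ≤ ((r * F + (r - 1) * (m + 1) : ℕ) : ℤ) := by exact_mod_cast h3
        rw [Nat.cast_add, Nat.cast_mul, Nat.cast_mul, h6] at h7
        push_cast at h7
        exact h7
      linarith
    have h8 : ((n : ℤ) - m * (r - 1)) / r < F + 1 :=
      Int.ediv_lt_of_lt_mul hrZ (by linarith)
    omega

end Pool.Agent.Results.MP_2806c7_co.AllChildren
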